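import Mathlib

namespace Pool.Agent.Results.MP_033923_lc.NoQ1

open Finset

/-- adaptive procedures: only evaluations of the functions are charged -/
inductive QT (n : ℕ) (α : Type) : Type
  | done : α → QT n α
  | ask : Fin n → ℝ → (ℝ → QT n α) → QT n α

def run {n : ℕ} {α : Type} (F : Fin n → ℝ → ℝ) : QT n α → α
  | QT.done a => a
  | QT.ask i x g => run F (g (F i x))

def evals {n : ℕ} {α : Type} (F : Fin n → ℝ → ℝ) : QT n α → ℕ
  | QT.done _ => 0
  | QT.ask i x g => evals F (g (F i x)) + 1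

def Adm (f : ℝ → ℝ) : Prop :=
  ConvexOn ℝ Set.univ f ∧ f 0 = 0 ∧ (∀ x, x ≠ 0 → 0 < f x) ∧ ∀ x, f (-x) = f x

def cnt {n : ℕ} (S : ℕ → Fin n) (i : Fin n) (k : ℕ) : ℕ :=
  ((Icc 1 k).filter fun j => S j = i).card

def IsSeq {n : ℕ} (d : Fin n → ℕ) (S : ℕ → Fin n) : Prop :=
  ∀ i, cnt S i (∑ j, d j) = d i

noncomputable def dev {n : ℕ} (d : Fin n → ℕ) (F : Fin n → ℝ → ℝ) (S : ℕ → Fin n) : ℝ :=
  ∑ i, ∑ k ∈ Icc 1 (∑ j, d j), F i ((cnt S i k : ℝ) - k * ((d i : ℝ) / ((∑ j, d j : ℕ) : ℝ)))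

def Opt {n : ℕ} (d : Fin n → ℕ) (F : Fin n → ℝ → ℝ) (S : ℕ → Fin n) : Prop :=
  IsSeq d S ∧ ∀ S', IsSeq d S' → dev d F S ≤ dev d F S'

/- proofs -/

def pts {n : ℕ} {α : Type} (F : Fin n → ℝ → ℝ) : QT n α → List ℝ
  | QT.done _ => []
  | QT.ask i x g => x :: pts F (g (F i x))

theorem pts_len {n : ℕ} {α : Type} (F : Fin n → ℝ → ℝ) (T : QT n α) :
    (pts F T).length = evals F T := by
  induction T with
  | done a => rfl
  | ask i x g ih => simp [pts, evals, ih]

theorem run_eq {n : ℕ} {α : Type} (F F' : Fin n → ℝ → ℝ) (T : QT n α)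
    (h : ∀ i, ∀ x ∈ pts F T, F' i x = F i x) : run F' T = run F T := by
  induction T with
  | done a => rfl
  | ask i x g ih =>
    have h1 : F' i x = F i x := h i x (by simp [pts])
    simp only [run, h1]
    exact ih _ fun j y hy => h j y (by simp [pts, hy])

noncomputable def e (p k : ℕ) : ℝ := if p ≤ k then 1 else 0

noncomputable def tm (D : ℕ) (F : Fin 4 → ℝ → ℝ) (p : Fin 3 → ℕ) (k : ℕ) : ℝ :=
  ∑ i : Fin 3, F i.castSucc (e (p i) k - k / D) + F 3 (3 * (k / D) - ∑ i : Fin 3, e (p i) k)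

noncomputable def C (D : ℕ) (F : Fin 4 → ℝ → ℝ) (p : Fin 3 → ℕ) : ℝ :=
  ∑ k ∈ Icc 1 D, tm D F p k

def Ok (D : ℕ) (p : Fin 3 → ℕ) : Prop := Function.Injective p ∧ ∀ i, 1 ≤ p i ∧ p i ≤ D

theorem sumd (m : ℕ) : ∑ j, (![1, 1, 1, m] : Fin 4 → ℕ) j = m + 3 := by
  simp [Fin.sum_univ_four]; omega

theorem cnt_sum {n : ℕ} (S : ℕ → Fin n) (k : ℕ) : ∑ i, cnt S i k = k := by
  unfold cnt
  rw [← Finset.card_eq_sum_card_fiberwise (f := S) (s := Icc 1 k) (t := univ) (by intro x _; simp)]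
  simp

theorem dev_eq (m : ℕ) (S : ℕ → Fin 4) (p : Fin 3 → ℕ) (hp : ∀ i, 1 ≤ p i ∧ p i ≤ m + 3)
    (h : ∀ i, ∀ j, 1 ≤ j → j ≤ m + 3 → (S j = i.castSucc ↔ j = p i)) :
    IsSeq ![1, 1, 1, m] S ∧ ∀ F, dev ![1, 1, 1, m] F S = C (m + 3) F p := by
  have hc : ∀ i : Fin 3, ∀ k ≤ m + 3, cnt S i.castSucc k = if p i ≤ k then 1 else 0 := by
    intro i k hk
    unfold cnt
    split_ifs with hh
    · rw [Finset.card_eq_one]
      refine ⟨p i, ?_⟩
      ext j
      simp only [mem_filter, mem_Icc, mem_singleton]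
      constructor
      · rintro ⟨⟨h1, h2⟩, h3⟩
        exact (h i j h1 (by omega)).1 h3
      · rintro rfl
        exact ⟨⟨(hp i).1, hh⟩, (h i _ (hp i).1 (hp i).2).2 rfl⟩
    · rw [Finset.card_eq_zero, Finset.filter_eq_empty_iff]
      intro j hj h3
      rw [mem_Icc] at hj
      have := (h i j hj.1 (by omega)).1 h3
      omega
  have h3 : ∀ k, cnt S 0 k + cnt S 1 k + cnt S 2 k + cnt S 3 k = k := by
    intro k
    have := cnt_sum S k
    simpa [Fin.sum_univ_four] using this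
  have c0 : ∀ k ≤ m + 3, cnt S 0 k = if p 0 ≤ k then 1 else 0 := hc 0
  have c1 : ∀ k ≤ m + 3, cnt S 1 k = if p 1 ≤ k then 1 else 0 := hc 1
  have c2 : ∀ k ≤ m + 3, cnt S 2 k = if p 2 ≤ k then 1 else 0 := hc 2
  constructor
  · intro i
    rw [sumd]
    have a0 := c0 _ le_rfl
    have a1 := c1 _ le_rfl
    have a2 := c2 _ le_rfl
    rw [if_pos (hp _).2] at a0 a1 a2
    have a3 := h3 (m + 3)
    fin_cases i
    · simpa using a0
    · simpa using a1
    · simpa using a2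
    · simp; omega
  · intro F
    unfold dev C
    rw [sumd, Finset.sum_comm]
    refine Finset.sum_congr rfl fun k hk => ?_
    rw [mem_Icc] at hk
    have r0 : (cnt S 0 k : ℝ) = e (p 0) k := by rw [c0 k hk.2]; unfold e; split_ifs <;> simp
    have r1 : (cnt S 1 k : ℝ) = e (p 1) k := by rw [c1 k hk.2]; unfold e; split_ifs <;> simp
    have r2 : (cnt S 2 k : ℝ) = e (p 2) k := by rw [c2 k hk.2]; unfold e; split_ifs <;> simp
    have r3 : (cnt S 3 k : ℝ) = k - (e (p 0) k + e (p 1) k + e (p 2) k) := by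
      have : ((cnt S 0 k + cnt S 1 k + cnt S 2 k + cnt S 3 k : ℕ) : ℝ) = k := by rw [h3]
      push_cast at this
      linarith
    have hD : ((m + 3 : ℕ) : ℝ) ≠ 0 := by positivity
    have hm : (m : ℝ) = ((m + 3 : ℕ) : ℝ) - 3 := by push_cast; ring
    unfold tm
    simp only [Fin.sum_univ_four, Fin.sum_univ_three, r0, r1, r2, r3]
    have t0 : (Fin.castSucc (0 : Fin 3) : Fin 4) = 0 := rfl
    have t1 : (Fin.castSucc (1 : Fin 3) : Fin 4) = 1 := rfl
    have t2 : (Fin.castSucc (2 : Fin 3) : Fin 4) = 2 := rfl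
    have u0 : (![1, 1, 1, m] : Fin 4 → ℕ) 0 = 1 := rfl
    have u1 : (![1, 1, 1, m] : Fin 4 → ℕ) 1 = 1 := rfl
    have u2 : (![1, 1, 1, m] : Fin 4 → ℕ) 2 = 1 := rfl
    have u3 : (![1, 1, 1, m] : Fin 4 → ℕ) 3 = m := rfl
    rw [t0, t1, t2, u0, u1, u2, u3]
    generalize ((m + 3 : ℕ) : ℝ) = Dr at *
    congr 1
    · congr 1
      · congr 2 <;> (simp; try ring)
      · congr 1; simp; ring
    · congr 1
      rw [hm]; field_simp; ring

theorem lemA (m : ℕ) (S : ℕ → Fin 4) (hS : IsSeq ![1, 1, 1, m] S) :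
    ∃ p, Ok (m + 3) p ∧ (∀ i, ∀ j, 1 ≤ j → j ≤ m + 3 → (S j = i.castSucc ↔ j = p i)) ∧
      ∀ F, dev ![1, 1, 1, m] F S = C (m + 3) F p := by
  have h1 : ∀ i : Fin 3, ∃ a, (Icc 1 (m + 3)).filter (fun j => S j = i.castSucc) = {a} := by
    intro i
    have := hS i.castSucc
    rw [sumd] at this
    rw [← Finset.card_eq_one]
    refine this.trans ?_
    fin_cases i <;> rfl
  choose p hp using h1
  have hm : ∀ i, 1 ≤ p i ∧ p i ≤ m + 3 ∧ S (p i) = i.castSucc := by
    intro i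
    have : p i ∈ (Icc 1 (m + 3)).filter (fun j => S j = i.castSucc) := by rw [hp]; simp
    simp only [mem_filter, mem_Icc] at this
    exact ⟨this.1.1, this.1.2, this.2⟩
  have hi : ∀ i, ∀ j, 1 ≤ j → j ≤ m + 3 → (S j = i.castSucc ↔ j = p i) := by
    intro i j a b
    constructor
    · intro c
      have : j ∈ (Icc 1 (m + 3)).filter (fun j => S j = i.castSucc) := by
        simp only [mem_filter, mem_Icc]; exact ⟨⟨a, b⟩, c⟩
      rw [hp] at this
      simpa using this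
    · rintro rfl
      exact (hm i).2.2
  refine ⟨p, ⟨?_, fun i => ⟨(hm i).1, (hm i).2.1⟩⟩, hi,
    (dev_eq m S p (fun i => ⟨(hm i).1, (hm i).2.1⟩) hi).2⟩
  intro a b hab
  have := (hm a).2.2
  rw [hab, (hm b).2.2] at this
  exact (Fin.castSucc_injective _ this).symm

theorem lemB (m : ℕ) (p : Fin 3 → ℕ) (hp : Ok (m + 3) p) :
    ∃ S, IsSeq ![1, 1, 1, m] S ∧ ∀ F, dev ![1, 1, 1, m] F S = C (m + 3) F p := by
  refine ⟨fun j => if j = p 0 then 0 else if j = p 1 then 1 else if j = p 2 then 2 else 3,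
    dev_eq m _ p hp.2 ?_⟩
  have n01 : p 0 ≠ p 1 := fun h => by simpa using hp.1 h
  have n02 : p 0 ≠ p 2 := fun h => by simpa using hp.1 h
  have n12 : p 1 ≠ p 2 := fun h => by simpa using hp.1 h
  intro i j _ _
  fin_cases i <;> simp only [] <;> split_ifs with a b c <;> simp_all

def sq4 : Fin 4 → ℝ → ℝ := fun _ x => x ^ 2

theorem C_perm (D : ℕ) (p : Fin 3 → ℕ) (σ : Equiv.Perm (Fin 3)) :
    C D sq4 (p ∘ σ) = C D sq4 p := by
  unfold C tm sq4
  refine Finset.sum_congr rfl fun k _ => ?_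
  rw [← Equiv.sum_comp σ (fun i => (e (p i) k - (k : ℝ) / D) ^ 2),
    ← Equiv.sum_comp σ (fun i => e (p i) k)]
  rfl

theorem C_diff (D : ℕ) (p q : Fin 3 → ℕ) (u : ℕ) (h1 : 1 ≤ u) (h2 : u ≤ D)
    (h : ∀ k, k ≠ u → ∀ i, e (p i) k = e (q i) k) :
    C D sq4 p - C D sq4 q = tm D sq4 p u - tm D sq4 q u := by
  unfold C
  rw [← Finset.sum_sub_distrib]
  refine Finset.sum_eq_single u ?_ (by simp [h1, h2])
  intro k _ hk
  unfold tm
  simp only [h k hk]
  ring

theorem ok3 (D u v w : ℕ) (h0 : 1 ≤ u) (h1 : u < v) (h2 : v < w) (h3 : w ≤ D) :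
    Ok D ![u, v, w] := by
  constructor
  · intro a b hab
    fin_cases a <;> fin_cases b <;> simp_all <;> omega
  · intro i
    fin_cases i <;> simp <;> omega

theorem e_succ (u k : ℕ) (h : k ≠ u) : e (u + 1) k = e u k := by
  unfold e
  split_ifs <;> first | rfl | omega

theorem mv0 (D u v w : ℕ) (h0 : 1 ≤ u) (h1 : u + 1 < v) (h2 : v < w) (h3 : w ≤ D) :
    C D sq4 ![u + 1, v, w] - C D sq4 ![u, v, w] = 8 * (u / D) - 2 := by
  rw [C_diff D _ _ u h0 (by omega)]
  · have a : e (u + 1) u = 0 := by simp [e]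
    have b : e u u = 1 := by simp [e]
    have c : e v u = 0 := by unfold e; rw [if_neg (by omega)]
    have d : e w u = 0 := by unfold e; rw [if_neg (by omega)]
    simp only [tm, sq4, Fin.sum_univ_three, Matrix.cons_val_zero, Matrix.cons_val_one,
      Matrix.cons_val, a, b, c, d]
    ring
  · intro k hk i
    fin_cases i <;> simp [e_succ _ _ hk]

theorem mv1 (D u v w : ℕ) (h0 : 1 ≤ u) (h1 : u < v) (h2 : v + 1 < w) (h3 : w ≤ D) :
    C D sq4 ![u, v + 1, w] - C D sq4 ![u, v, w] = 8 * (v / D) - 4 := by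
  rw [C_diff D _ _ v (by omega) (by omega)]
  · have a : e (v + 1) v = 0 := by simp [e]
    have b : e v v = 1 := by simp [e]
    have c : e u v = 1 := by unfold e; rw [if_pos (by omega)]
    have d : e w v = 0 := by unfold e; rw [if_neg (by omega)]
    simp only [tm, sq4, Fin.sum_univ_three, Matrix.cons_val_zero, Matrix.cons_val_one,
      Matrix.cons_val, a, b, c, d]
    ring
  · intro k hk i
    fin_cases i <;> simp [e_succ _ _ hk]

theorem mv2 (D u v w : ℕ) (h0 : 1 ≤ u) (h1 : u < v) (h2 : v < w) (h3 : w + 1 ≤ D) :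
    C D sq4 ![u, v, w + 1] - C D sq4 ![u, v, w] = 8 * (w / D) - 6 := by
  rw [C_diff D _ _ w (by omega) (by omega)]
  · have a : e (w + 1) w = 0 := by simp [e]
    have b : e w w = 1 := by simp [e]
    have c : e u w = 1 := by unfold e; rw [if_pos (by omega)]
    have d : e v w = 1 := by unfold e; rw [if_pos (by omega)]
    simp only [tm, sq4, Fin.sum_univ_three, Matrix.cons_val_zero, Matrix.cons_val_one,
      Matrix.cons_val, a, b, c, d]
    ring
  · intro k hk i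
    fin_cases i <;> simp [e_succ _ _ hk]

theorem loc (D u v w : ℕ) (h0 : 1 ≤ u) (h1 : u < v) (h2 : v < w) (h3 : w ≤ D)
    (ho : ∀ q, Ok D q → C D sq4 ![u, v, w] ≤ C D sq4 q) :
    4 * u ≤ D + 4 ∧ 2 * v ≤ D + 4 ∧ D ≤ 2 * v + 2 := by
  have hD : (0 : ℝ) < D := by exact_mod_cast (by omega : 0 < D)
  have up : ∀ x c : ℕ, 8 * ((x : ℝ) / D) - c ≤ 0 → 8 * x ≤ c * D := by
    intro x c h
    have : 8 * (x : ℝ) ≤ c * D := by
      have : (x : ℝ) / D ≤ c / 8 := by linarith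
      rw [div_le_iff₀ hD] at this
      linarith
    exact_mod_cast this
  have lo : ∀ x c : ℕ, 0 ≤ 8 * ((x : ℝ) / D) - c → c * D ≤ 8 * x := by
    intro x c h
    have : (c : ℝ) * D ≤ 8 * x := by
      have : (c : ℝ) / 8 ≤ x / D := by linarith
      rw [le_div_iff₀ hD] at this
      linarith
    exact_mod_cast this
  have a1 : 4 * u ≤ D + 4 := by
    rcases Nat.lt_or_ge u 2 with h | h
    · omega
    · obtain ⟨x, rfl⟩ : ∃ x, u = x + 1 := ⟨u - 1, by omega⟩
      have m := mv0 D x v w (by omega) h1 h2 h3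
      have := ho _ (ok3 D x v w (by omega) (by omega) h2 h3)
      have := up x 2 (by push_cast; linarith)
      omega
  have a2 : 2 * v ≤ D + 4 := by
    rcases Nat.lt_or_ge v (u + 2) with h | h
    · omega
    · obtain ⟨x, rfl⟩ : ∃ x, v = x + 1 := ⟨v - 1, by omega⟩
      have m := mv1 D u x w h0 (by omega) h2 h3
      have := ho _ (ok3 D u x w h0 (by omega) (by omega) h3)
      have := up x 4 (by push_cast; linarith)
      omega
  have a3 : 3 * D ≤ 4 * w := by
    rcases Nat.lt_or_ge w D with h | h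
    · have m := mv2 D u v w h0 h1 h2 h
      have := ho _ (ok3 D u v (w + 1) h0 h1 (by omega) h)
      have := lo w 6 (by push_cast; linarith)
      omega
    · omega
  refine ⟨a1, a2, ?_⟩
  rcases Nat.lt_or_ge (v + 1) w with h | h
  · have m := mv1 D u v w h0 h1 h h3
    have := ho _ (ok3 D u (v + 1) w h0 (by omega) h h3)
    have := lo v 4 (by push_cast; linarith)
    omega
  · omega

noncomputable def bump (p δ x : ℝ) : ℝ := max (x ^ 2) (2 * p * |x| + (δ ^ 2 - p ^ 2))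

theorem bump_eq (p δ x : ℝ) (hδ : 0 ≤ δ) (h : δ ≤ |(|x| - p)|) : bump p δ x = x ^ 2 := by
  unfold bump
  refine max_eq_left ?_
  have h1 : δ ^ 2 ≤ (|x| - p) ^ 2 := by
    rw [← sq_abs (|x| - p)]
    exact pow_le_pow_left₀ hδ h 2
  have h2 : |x| ^ 2 = x ^ 2 := sq_abs x
  nlinarith

theorem adm_sq : Adm fun x => x ^ 2 :=
  ⟨(Even.convexOn_pow (by decide : Even 2)), by simp, fun x hx => by positivity, fun x => by ring⟩

theorem adm_bump (p δ : ℝ) (hδ : 0 ≤ δ) (h : δ ≤ p) : Adm (bump p δ) := by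
  refine ⟨?_, ?_, ?_, ?_⟩
  · have c1 : ConvexOn ℝ Set.univ fun x : ℝ => |x| :=
      convexOn_univ_norm (E := ℝ)
    have c2 := (c1.smul (by linarith : 0 ≤ 2 * p)).add_const (δ ^ 2 - p ^ 2)
    exact adm_sq.1.sup c2
  · rw [bump_eq p δ 0 hδ (by simpa using h.trans (le_abs_self p))]; simp
  · intro x hx
    exact lt_of_lt_of_le (by positivity) (le_max_left _ _)
  · intro x
    simp [bump]

theorem ex_delta (L : List ℝ) (p η : ℝ) (hη : 0 < η) (h : ∀ x ∈ L, |x| ≠ p) :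
    ∃ δ, 0 < δ ∧ δ ≤ η ∧ ∀ x ∈ L, δ ≤ |(|x| - p)| := by
  induction L with
  | nil => exact ⟨η, hη, le_rfl, by simp⟩
  | cons y L ih =>
    obtain ⟨δ, a, b, c⟩ := ih fun x hx => h x (by simp [hx])
    have : 0 < |(|y| - p)| := abs_pos.2 (sub_ne_zero.2 (h y (by simp)))
    refine ⟨min δ |(|y| - p)|, lt_min a this, (min_le_left _ _).trans b, ?_⟩
    intro x hx
    rcases List.mem_cons.1 hx with rfl | hx
    · exact min_le_right _ _
    · exact (min_le_left _ _).trans (c x hx)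

theorem ex_k (D : ℕ) (L : List ℝ) (h : 4 * L.length + 12 < D) :
    ∃ k : ℕ, D / 4 + 1 ≤ k ∧ 2 * k + 4 ≤ D ∧ ∀ x ∈ L, |x| ≠ 1 - (k : ℝ) / D := by
  by_contra hn
  push Not at hn
  have hD : (0 : ℝ) < D := by exact_mod_cast (by omega : 0 < D)
  have hsub : (Icc (D / 4 + 1) ((D - 4) / 2)).image (fun k : ℕ => 1 - (k : ℝ) / D) ⊆
      (L.map fun x => |x|).toFinset := by
    intro y hy
    simp only [mem_image, mem_Icc] at hy
    obtain ⟨k, hk, rfl⟩ := hy
    obtain ⟨x, hx, hx'⟩ := hn k hk.1 (by omega)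
    simp only [List.mem_toFinset, List.mem_map]
    exact ⟨x, hx, hx'⟩
  have h1 := Finset.card_le_card hsub
  rw [Finset.card_image_of_injective _ (by
    intro a b hab
    have : (a : ℝ) / D = b / D := by simpa using hab
    rw [div_left_inj' hD.ne'] at this
    exact_mod_cast this)] at h1
  have h2 := List.toFinset_card_le (L.map fun x => |x|)
  simp only [Nat.card_Icc, List.length_map] at h1 h2
  omega

theorem main (m : ℕ) (α : Type) (pre : QT 4 α) (qry : α → ℕ → QT 4 (Fin 4))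
    (H : ∀ F : Fin 4 → ℝ → ℝ, (∀ i, Adm (F i)) →
      Opt ![1, 1, 1, m] F fun k => run F (qry (run F pre) k)) :
    ∃ k, 1 ≤ k ∧ k ≤ m + 3 ∧
      m + 3 ≤ 4 * (evals sq4 pre + evals sq4 (qry (run sq4 pre) k)) + 12 := by
  obtain ⟨hS, hO⟩ := H sq4 fun _ => adm_sq
  obtain ⟨p, hp, hpi, hpc⟩ := lemA m _ hS
  have hopt : ∀ q, Ok (m + 3) q → C (m + 3) sq4 p ≤ C (m + 3) sq4 q := by
    intro q hq
    obtain ⟨S', a, b⟩ := lemB m q hq
    rw [← hpc, ← b]
    exact hO S' a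
  set σ := Tuple.sort p with hσ
  have hmono : StrictMono (p ∘ σ) :=
    (Tuple.monotone_sort p).strictMono_of_injective (hp.1.comp σ.injective)
  have hq : p ∘ σ = ![p (σ 0), p (σ 1), p (σ 2)] := by
    funext i; fin_cases i <;> rfl
  have l01 : p (σ 0) < p (σ 1) := hmono (by decide : (0 : Fin 3) < 1)
  have l12 : p (σ 1) < p (σ 2) := hmono (by decide : (1 : Fin 3) < 2)
  obtain ⟨b1, b2, b3⟩ := loc (m + 3) _ _ _ (hp.2 _).1 l01 l12 (hp.2 _).2 (by
    intro q hq'
    rw [← hq, C_perm]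
    exact hopt q hq')
  set a := σ 0
  set b := σ 1
  set u := p a with hu
  set v := p b with hv
  refine ⟨u, (hp.2 _).1, (hp.2 _).2, ?_⟩
  by_contra hn
  set D := m + 3 with hD
  have hD0 : (0 : ℝ) < D := by positivity
  obtain ⟨k, k1, k2, k3⟩ := ex_k D (pts sq4 pre ++ pts sq4 (qry (run sq4 pre) u)) (by
    simp only [List.length_append, pts_len]; omega)
  obtain ⟨δ, d0, d1, d2⟩ := ex_delta _ _ (1 / D) (by positivity) k3
  set P : ℝ := 1 - (k : ℝ) / D with hP
  have hPk : P = ((D - k : ℕ) : ℝ) / D := by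
    rw [Nat.cast_sub (by omega), hP]; field_simp
  have far : ∀ j : ℕ, j ≠ D - k → δ ≤ |((j : ℝ) / D - P)| := by
    intro j hj
    refine d1.trans ?_
    rw [hPk, ← sub_div, abs_div, abs_of_pos hD0]
    refine div_le_div_of_nonneg_right ?_ hD0.le
    have : (1 : ℤ) ≤ |(j : ℤ) - ((D - k : ℕ) : ℤ)| := Int.one_le_abs (by omega)
    exact_mod_cast this
  have dP : δ ≤ P := by
    have := far 0 (by omega)
    have h2 : 0 ≤ P := by rw [hPk]; positivity
    simpa [abs_of_nonneg h2] using this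
  set F' : Fin 4 → ℝ → ℝ := Function.update sq4 a.castSucc (bump P δ) with hF'
  have hF : ∀ i x, F' i x = if i = a.castSucc then bump P δ x else x ^ 2 := by
    intro i x
    rw [hF', Function.update_apply]
    split_ifs <;> rfl
  have hadm : ∀ i, Adm (F' i) := by
    intro i
    rw [hF', Function.update_apply]
    split_ifs
    · exact adm_bump P δ d0.le dP
    · exact adm_sq
  have agree : ∀ i, ∀ x ∈ pts sq4 pre ++ pts sq4 (qry (run sq4 pre) u), F' i x = sq4 i x := by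
    intro i x hx
    rw [hF]
    split_ifs
    · exact bump_eq _ _ _ d0.le (d2 x hx)
    · rfl
  have r1 : run F' pre = run sq4 pre := run_eq _ _ _ fun i x hx => agree i x (by simp [hx])
  have r2 : run F' (qry (run F' pre) u) = run sq4 (qry (run sq4 pre) u) := by
    rw [r1]
    exact run_eq _ _ _ fun i x hx => agree i x (by simp [hx])
  obtain ⟨hS', hO'⟩ := H F' hadm
  obtain ⟨p', hp', hpi', hpc'⟩ := lemA m _ hS'
  have hu' : u = p' a := by
    refine (hpi' a u (hp.2 _).1 (hp.2 _).2).1 ?_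
    rw [r2]
    exact (hpi a u (hp.2 _).1 (hp.2 _).2).2 rfl
  have h3 : (3 : Fin 4) ≠ a.castSucc := (Fin.castSucc_lt_last a).ne'
  have ge : ∀ i x, x ^ 2 ≤ F' i x := by
    intro i x
    rw [hF]
    split_ifs
    · exact le_max_left _ _
    · exact le_rfl
  have s1 : C D sq4 p' < C D F' p' := by
    unfold C
    refine Finset.sum_lt_sum (fun j _ => ?_) ⟨k, by rw [mem_Icc]; omega, ?_⟩
    · unfold tm
      exact add_le_add (Finset.sum_le_sum fun i _ => ge _ _) (ge _ _)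
    · unfold tm
      refine add_lt_add_of_lt_of_le (Finset.sum_lt_sum (fun i _ => ge _ _) ⟨a, by simp, ?_⟩)
        (ge _ _)
      have : e (p' a) k = 1 := by unfold e; rw [if_pos (by omega)]
      rw [this, hF, if_pos rfl, ← hP]
      refine lt_of_lt_of_le ?_ (le_max_right _ _)
      rw [abs_of_nonneg (d0.le.trans dP)]
      unfold sq4
      nlinarith [pow_pos d0 2]
  have okq : Ok D (p ∘ Equiv.swap a b) :=
    ⟨hp.1.comp (Equiv.swap a b).injective, fun i => hp.2 _⟩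
  have s2 : C D F' (p ∘ Equiv.swap a b) = C D sq4 (p ∘ Equiv.swap a b) := by
    unfold C
    refine Finset.sum_congr rfl fun j hj => ?_
    rw [mem_Icc] at hj
    unfold tm
    congr 1
    · refine Finset.sum_congr rfl fun i _ => ?_
      rw [hF]
      split_ifs with hi
      · have hia : i = a := Fin.castSucc_injective _ hi
        subst hia
        refine bump_eq _ _ _ d0.le ?_
        simp only [Function.comp, Equiv.swap_apply_left, ← hv]
        unfold e
        split_ifs with hh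
        · have : |1 - (j : ℝ) / D| = ((D - j : ℕ) : ℝ) / D := by
            rw [← abs_of_nonneg (by positivity : (0 : ℝ) ≤ ((D - j : ℕ) : ℝ) / D),
              Nat.cast_sub hj.2]
            congr 1; field_simp
          rw [this]
          exact far _ (by omega)
        · have : |0 - (j : ℝ) / D| = (j : ℝ) / D := by
            rw [zero_sub, abs_neg, abs_of_nonneg (by positivity)]
          rw [this]
          exact far _ (by omega)
      · rfl
    · rw [hF, if_neg h3]; rfl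
  obtain ⟨S2, a2, b2⟩ := lemB m _ okq
  have t1 := hO' S2 a2
  rw [hpc', b2, s2, C_perm] at t1
  have t2 := hopt p' hp'
  linarith

theorem grow (c : ℕ) : ∃ t : ℕ, 2 ≤ t ∧ 8 * (t + 6) ^ c + 12 < 2 ^ t := by
  have h := isLittleO_pow_const_const_pow_of_one_lt (R := ℝ) c (by norm_num : (1 : ℝ) < 2)
  have h2 := (h.def (by positivity : (0 : ℝ) < 1 / 2048))
  obtain ⟨N, hN⟩ := Filter.eventually_atTop.1 h2
  refine ⟨N + 5, by omega, ?_⟩
  have h3 := hN (N + 5 + 6) (by omega)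
  rw [Real.norm_eq_abs, Real.norm_eq_abs, abs_of_nonneg (by positivity),
    abs_of_nonneg (by positivity)] at h3
  have h4 : (1 : ℝ) ≤ 2 ^ N := one_le_pow₀ (by norm_num)
  have : (8 * ((N + 5 + 6 : ℕ) : ℝ) ^ c + 12 : ℝ) < 2 ^ (N + 5) := by
    rw [pow_add, pow_add] at h3
    rw [pow_add]
    norm_num at h3 ⊢
    linarith
  exact_mod_cast this

theorem result :
    (∀ (m : ℕ) (α : Type) (pre : QT 4 α) (qry : α → ℕ → QT 4 (Fin 4)),
      (∀ F : Fin 4 → ℝ → ℝ, (∀ i, Adm (F i)) →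
        Opt ![1, 1, 1, m] F fun k => run F (qry (run F pre) k)) →
      ∃ F : Fin 4 → ℝ → ℝ, (∀ i, Adm (F i)) ∧ ∃ k, 1 ≤ k ∧ k ≤ m + 3 ∧
        m + 3 ≤ 4 * (evals F pre + evals F (qry (run F pre) k)) + 12) ∧
    ¬ ∃ (α : Type) (pre : (n : ℕ) → (Fin n → ℕ) → QT n α)
        (qry : (n : ℕ) → α → ℕ → QT n (Fin n)) (c : ℕ),
      ∀ (n : ℕ) (d : Fin n → ℕ) (F : Fin n → ℝ → ℝ), 0 < n → (∀ i, 0 < d i) →
        (∀ i, Adm (F i)) →
        (Opt d F fun k => run F (qry n (run F (pre n d)) k)) ∧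
        evals F (pre n d) ≤ (n + Nat.log 2 (∑ j, d j) + 2) ^ c ∧
        ∀ k, 1 ≤ k → k ≤ ∑ j, d j →
          evals F (qry n (run F (pre n d)) k) ≤ (n + Nat.log 2 (∑ j, d j) + 2) ^ c := by
  refine ⟨fun m α pre qry H => ⟨sq4, fun _ => adm_sq, main m α pre qry H⟩, ?_⟩
  rintro ⟨α, pre, qry, c, H⟩
  obtain ⟨t, t2, ht⟩ := grow c
  have h4 : 2 ^ 2 ≤ 2 ^ t := Nat.pow_le_pow_right (by norm_num) t2
  obtain ⟨m, hm⟩ : ∃ m, 2 ^ t = m + 3 := ⟨2 ^ t - 3, by omega⟩
  have hd : ∀ i, 0 < (![1, 1, 1, m] : Fin 4 → ℕ) i := by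
    intro i
    fin_cases i <;> simp
    omega
  obtain ⟨k, k1, k2, k3⟩ := main m α (pre 4 ![1, 1, 1, m]) (qry 4) fun F hF =>
    (H 4 _ F (by norm_num) hd hF).1
  obtain ⟨-, e1, e2⟩ := H 4 _ sq4 (by norm_num) hd fun _ => adm_sq
  rw [sumd] at e1 e2
  have e3 := e2 k k1 k2
  rw [← hm, Nat.log_pow (by norm_num), (by ring : 4 + t + 2 = t + 6)] at e1 e3
  omega

end Pool.Agent.Results.MP_033923_lc.NoQ1
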